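import Pool.Agent.Q194.VT.Data

/-!
# MP_b64830_ag: the 4-uple embeddings of `ℙ^r`, `r ≥ 3`, have 2-torsion; `r_min ≤ 3`
-/

namespace Pool.Agent.Results.MP_b64830_ag.RMinAtMostThree

open Pool.Agent.Q194.VT

/-- For every `r ≥ 3` the Betti numbers `β_{13,15}` and `β_{14,15}` of the `4`-uple embedding of
`ℙ^r` over a field of characteristic two are larger than over a field of characteristic zero.
In particular `r_min ≤ 3`. -/
theorem result :
    (∀ r : ℕ, 3 ≤ r → ∀ (K k : Type) [Field K] [Field k] [CharZero K] [CharP k 2],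
      betti K r 4 13 15 < betti k r 4 13 15 ∧ betti K r 4 14 15 < betti k r 4 14 15) ∧
    rMin ≤ 3 :=
  ⟨fun _ hr K k _ _ _ _ => betti_lt_main hr K k, rMin_le⟩

end Pool.Agent.Results.MP_b64830_ag.RMinAtMostThree
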